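import Pool.Agent.Q282.UK.Exact

/-!
# MP_bd895b_nt: the local-global complex for zero-cycles and systems of bilinear equations
-/

set_option autoImplicit false

open CategoryTheory Limits AlgebraicGeometry Pool.Agent.Y116.UV Pool.Agent.Q282.UM
  Pool.Agent.Q282.UK

namespace Pool.Agent.Results.MP_bd895b_nt.BilinearSystems

universe v u w

/-- The three functors of the complex of the conjecture, and its maps, on the category `C` of
effective Chow motives over `ℚ` (covariant, with integral coefficients). For a smooth projective `X`:

* `glob` takes `M(X)` to the limit of the groups `CH_0(X)/n`;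
* `loc` takes `M(X)` to the product over the places `v` of the limits of the groups
  `CH_0(X_v)^*/n`;
* `dual` takes `M(X)` to `Hom(Br(X), ℚ/ℤ)`. -/
structure ZeroCycles (C : Type u) [Category.{v} C] where
  glob : C ⥤ ModuleCat.{w} ℤ
  loc : C ⥤ ModuleCat.{w} ℤ
  dual : C ⥤ ModuleCat.{w} ℤ
  diag : glob ⟶ loc
  pair : loc ⟶ dual

/-- The composite of the maps is zero (reciprocity), and the functor `loc` is additive. -/
structure IsZeroCycles {C : Type u} [Category.{v} C] [Preadditive C]
    (Z : ZeroCycles.{v, u, w} C) : Prop where
  zero : Z.diag ≫ Z.pair = 0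
  additive : Z.loc.Additive

/-- The complex `glob → loc → dual` of functors. -/
def complex {C : Type u} [Category.{v} C] [Preadditive C] {Z : ZeroCycles.{v, u, w} C}
    (hZ : IsZeroCycles Z) : ShortComplex (C ⥤ ModuleCat.{w} ℤ) :=
  ShortComplex.mk Z.diag Z.pair hZ.zero

/-- **The local-global complex for zero-cycles and systems of bilinear equations.** Let `C` be the
category of effective Chow motives over `ℚ`, with integral coefficients, and let `W(X)` be the
weight complex of the scheme `X` of finite type over `ℚ`. The complex
`lim CH_0(X)/n → ∏ lim CH_0(X_v)^*/n → Hom(Br(X), ℚ/ℤ)` is exact for all smooth projective `X` over `ℚ`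
if and only if for all `Y ⊂ 𝔸^{a+b}` given by systems of bilinear equations
`∑_{(i, j) ∈ E_l} x_i y_j = 0`, `l = 1, …, c`, with coefficients `0` and `1`, the complex `E(W(Y))` is
acyclic, where `E(M)` is the homology of the complex for the motive `M`. -/
theorem result {C : Type u} [Category.{v} C] [Preadditive C] [HasZeroObject C]
    [HasBinaryBiproducts C] [HasFiniteBiproducts C] (D : Complexes ℚ C) (hD : IsCovariant D)
    (Z : ZeroCycles.{v, u, w} C) (hZ : IsZeroCycles Z) :
    ForMotives D (ExactOn (complex hZ)) ↔
      ForBinarySystems D (ExactK (complex hZ) hZ.additive) :=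
  binary_cov presents_rat hD (ext_exact (complex hZ) hZ.additive)

end Pool.Agent.Results.MP_bd895b_nt.BilinearSystems
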