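import Pool.Agent.Y716.FF.Final
import Pool.Agent.Q59.ZC.Gen

/-!
# Zero-cycles of degree one on families of sections of 100% of the Fano hypersurfaces over `F_q(t)`

Let `F` be a finite field, `n ≥ 3`, `2 ≤ d ≤ n`, and `f = 0` a hypersurface of degree `d` in `ℙⁿ` over
`F(t)`. Let `g(x; z) = ∑ G_i(x) z_0^{m-i} z_1^i` be a form of bidegree `(e, m)` on `ℙⁿ × ℙ¹`, such that
`G_0` has a linear factor (this is no condition for `e = 1`) and `m` is prime to `d`. The variety
`Y : f(x) = g(x; z) = 0` is a covering of degree `m` of `f = 0`, with canonical class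
`(d + e - n - 1, m - 2)`: a K3 surface for `(n, d, e, m) = (3, 3, 1, 2)`, an elliptic surface for
`(3, 3, 1, m)`, of general type if `d + e > n + 1` and `m > 2`.

For `100%` of the `f` with zeros over all the completions of `F(t)` ALL the varieties `Y` have
zero-cycles of degree one over `F(t)`.
-/

set_option autoImplicit false

namespace Pool.Agent.Results.MP_bd895b_nt.FamiliesOverFunctionFields

open Polynomial IsDedekindDomain Filter Topology

/-- The forms of degree `d` in `n + 1` variables over `F[t]` all of whose coefficients have degree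
less than `A`. -/
def Forms (F : Type) [Field F] (n d A : ℕ) : Set (MvPolynomial (Fin (n + 1)) F[X]) :=
  {f | f.IsHomogeneous d ∧ ∀ m, (f.coeff m).degree < A}

/-- The embedding of `F[t]` in the completion `F((u))`, `u = 1 / t`, of `F(t)` at infinity:
`t` goes to the inverse of `u`. -/
noncomputable def toInfty (F : Type) [Field F] : F[X] →+* LaurentSeries F :=
  (Polynomial.aeval (HahnSeries.single (-1 : ℤ) (1 : F)) : F[X] →ₐ[F] LaurentSeries F).toRingHom

/-- The form `f` has a nontrivial zero over the completion of `F(t)` at every place: at every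
maximal ideal `v` of `F[t]`, and at infinity. -/
def HasLocalZeros {F : Type} [Field F] {n : ℕ} (f : MvPolynomial (Fin (n + 1)) F[X]) : Prop :=
  (∀ v : HeightOneSpectrum F[X],
    ∃ x : Fin (n + 1) → v.adicCompletion (RatFunc F), x ≠ 0 ∧ MvPolynomial.aeval x f = 0) ∧
  ∃ x : Fin (n + 1) → LaurentSeries F, x ≠ 0 ∧ MvPolynomial.eval₂ (toInfty F) x f = 0

/-- A form `∑ G_i(x) z_0^{m-i} z_1^i` of bidegree `(e, m)` on `ℙⁿ × ℙ¹` with coefficients in `F[t]`,
such that `G_0` is divisible by a nonzero linear form. (This holds if `e = 1`, or if `G_0 = 0`.) -/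
structure Family (F : Type) [Field F] (n : ℕ) where
  /-- the degree in the coordinates of `ℙⁿ` -/
  e : ℕ
  /-- the degree in the coordinates of `ℙ¹` -/
  m : ℕ
  /-- the coefficients -/
  G : Fin (m + 1) → MvPolynomial (Fin (n + 1)) F[X]
  hom : ∀ i, (G i).IsHomogeneous e
  linearFactor : ∃ c : Fin (n + 1) → F[X], c ≠ 0 ∧
    (∑ i, MvPolynomial.C (c i) * MvPolynomial.X i) ∣ G 0

/-- The variety `Y : f(x) = 0, ∑ G_i(x) z_0^{m-i} z_1^i = 0` in `ℙⁿ × ℙ¹` has a point over the
field `L`, where `φ` is the map from `F[t]` to `L`. -/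
def HasPoint {F : Type} [Field F] {n : ℕ} (f : MvPolynomial (Fin (n + 1)) F[X]) (Y : Family F n)
    {L : Type} [Field L] (φ : F[X] →+* L) : Prop :=
  ∃ (x : Fin (n + 1) → L) (z : Fin 2 → L), x ≠ 0 ∧ z ≠ 0 ∧ MvPolynomial.eval₂ φ x f = 0 ∧
    ∑ i : Fin (Y.m + 1), MvPolynomial.eval₂ φ x (Y.G i) * z 0 ^ (Y.m - (i : ℕ)) *
      z 1 ^ (i : ℕ) = 0

/-- The variety `Y` has points over all the completions of `F(t)`. -/
def HasLocalPoints {F : Type} [Field F] {n : ℕ} (f : MvPolynomial (Fin (n + 1)) F[X])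
    (Y : Family F n) : Prop :=
  (∀ v : HeightOneSpectrum F[X],
    HasPoint f Y (algebraMap F[X] (v.adicCompletion (RatFunc F)))) ∧ HasPoint f Y (toInfty F)

/-- The variety `Y` has a zero-cycle of degree one over `F(t)`: there are finitely many finite
extensions `L i` of `F(t)` over which it has a point, and integers `k i` with
`∑ k i * [L i : F(t)] = 1`. (A point over `L i` is a closed point together with an embedding of its
residue field in `L i`, so this says that the degrees of the closed points have greatest common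
divisor one.) -/
def HasZeroCycleOfDegreeOne {F : Type} [Field F] {n : ℕ} (f : MvPolynomial (Fin (n + 1)) F[X])
    (Y : Family F n) : Prop :=
  ∃ (t : ℕ) (L : Fin t → Type) (_ : ∀ i, Field (L i)) (_ : ∀ i, Algebra (RatFunc F) (L i))
    (k : Fin t → ℤ), (∀ i, FiniteDimensional (RatFunc F) (L i)) ∧
    (∀ i, HasPoint f Y ((algebraMap (RatFunc F) (L i)).comp (algebraMap F[X] (RatFunc F)))) ∧
    ∑ i, k i * (Module.finrank (RatFunc F) (L i) : ℤ) = 1

theorem zc_of_zero {F : Type} [Field F] {n d : ℕ} (hn : 3 ≤ n)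
    {f : MvPolynomial (Fin (n + 1)) F[X]} (hf : f.IsHomogeneous d) (Y : Family F n)
    (hm : Nat.Coprime Y.m d) (h : ∃ x : Fin (n + 1) → RatFunc F, x ≠ 0 ∧ MvPolynomial.aeval x f = 0) :
    HasZeroCycleOfDegreeOne f Y := by
  obtain ⟨x, hx0, hx⟩ := h
  obtain ⟨c, hc, hG⟩ := Y.linearFactor
  have hinj : Function.Injective (algebraMap F[X] (RatFunc F)) :=
    IsFractionRing.injective F[X] (RatFunc F)
  have hmap : ∀ (L : Type) [Field L] [Algebra (RatFunc F) L] (y : Fin (n + 1) → L)
      (g : MvPolynomial (Fin (n + 1)) F[X]),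
      MvPolynomial.aeval y (MvPolynomial.map (algebraMap F[X] (RatFunc F)) g) =
        MvPolynomial.eval₂ ((algebraMap (RatFunc F) L).comp (algebraMap F[X] (RatFunc F))) y g := by
    intro L _ _ y g
    rw [MvPolynomial.aeval_def, MvPolynomial.eval₂_map]
  obtain ⟨t, L, iF, iA, k, h1, h2, h3⟩ := Pool.Agent.Q59.ZC.Gen.zc_family (K := RatFunc F)
    (n := n) (m := Y.m) (d := d) (by omega) (hf.map (algebraMap F[X] (RatFunc F)))
    (fun i => MvPolynomial.map (algebraMap F[X] (RatFunc F)) (Y.G i))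
    (c := fun i => algebraMap F[X] (RatFunc F) (c i)) (by
      intro h
      apply hc
      funext i
      have := congrFun h i
      exact hinj (by simpa using this))
    (by
      have := map_dvd (MvPolynomial.map (algebraMap F[X] (RatFunc F))) hG
      rw [map_sum] at this
      simpa using this)
    hm x hx0 (by
      rw [hmap, Algebra.algebraMap_self, RingHom.id_comp, ← MvPolynomial.aeval_def]
      exact hx)
  refine ⟨t, L, iF, iA, k, h1, fun i => ?_, h3⟩
  obtain ⟨y, z, g1, g2, g3, g4⟩ := h2 i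
  refine ⟨y, z, g1, g2, ?_, ?_⟩
  · rw [← hmap]
    exact g3
  · rw [← g4]
    exact Finset.sum_congr rfl fun j _ => by rw [hmap]

/-- **Zero-cycles of degree one on families of sections of 100% of the Fano hypersurfaces over
`F(t)`.** (1) A positive proportion of the forms `f` of degree `d`, `2 ≤ d ≤ n`, has zeros over all
the completions of `F(t)`. (2) For 100% of these `f` all the varieties `Y` in `ℙⁿ × ℙ¹` with `m` prime
to `d` have zero-cycles of degree one. (3) If one of the `Y` has points over all the completions, then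
`f` has zeros over all the completions. -/
theorem result (F : Type) [Field F] [Finite F] (n d : ℕ) (hn : 3 ≤ n) (hd : 2 ≤ d) (hdn : d ≤ n) :
    (∃ c : ℝ, 0 < c ∧ ∀ᶠ A : ℕ in atTop, c * ((Forms F n d A).ncard : ℝ) ≤
      (({f | f ∈ Forms F n d A ∧ HasLocalZeros f} : Set _).ncard : ℝ)) ∧
    Tendsto (fun A : ℕ =>
      (({f | f ∈ Forms F n d A ∧ HasLocalZeros f ∧
        ∀ Y : Family F n, Nat.Coprime Y.m d → HasZeroCycleOfDegreeOne f Y} : Set _).ncard : ℝ) /
      (({f | f ∈ Forms F n d A ∧ HasLocalZeros f} : Set _).ncard : ℝ)) atTop (𝓝 1) ∧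
    (∀ (f : MvPolynomial (Fin (n + 1)) F[X]) (Y : Family F n),
      HasLocalPoints f Y → HasLocalZeros f) := by
  classical
  obtain ⟨e, rfl⟩ : ∃ e, d = e + 2 := ⟨d - 2, by omega⟩
  have h1 := Pool.Agent.Y716.FF.main_tendsto (F := F) (ι := Fin (n + 1)) e
    (by rw [Fintype.card_fin]; omega) (by rw [Fintype.card_fin]; omega)
  have h2 := Pool.Agent.Y716.FF.main_positive (F := F) (ι := Fin (n + 1)) e
    (by rw [Fintype.card_fin]; omega) (by rw [Fintype.card_fin]; omega)
  have hfin : ∀ A : ℕ, ({f | f ∈ Forms F n (e + 2) A ∧ HasLocalZeros f} :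
      Set (MvPolynomial (Fin (n + 1)) F[X])).Finite := by
    intro A
    refine (Finset.finite_toSet (Pool.Agent.Y716.FF.forms F (Fin (n + 1)) (e + 2) A)).subset ?_
    rintro f ⟨hf, -⟩
    exact Pool.Agent.Y716.FF.mem_forms.mpr hf
  have hsub : ∀ A : ℕ, ({f | f ∈ Forms F n (e + 2) A ∧
      ∃ x : Fin (n + 1) → RatFunc F, x ≠ 0 ∧ MvPolynomial.aeval x f = 0} :
      Set (MvPolynomial (Fin (n + 1)) F[X])) ⊆
      {f | f ∈ Forms F n (e + 2) A ∧ HasLocalZeros f ∧
        ∀ Y : Family F n, Nat.Coprime Y.m (e + 2) → HasZeroCycleOfDegreeOne f Y} := by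
    rintro A f ⟨hf, hx⟩
    exact ⟨hf, Pool.Agent.Y716.FF.solK_els hf hx, fun Y hY => zc_of_zero hn hf.1 Y hY hx⟩
  refine ⟨?_, ?_, ?_⟩
  · obtain ⟨c, hc, h⟩ := h2
    refine ⟨c, hc, ?_⟩
    filter_upwards [h] with A hA
    refine le_trans hA ?_
    exact Nat.cast_le.2 (Set.ncard_le_ncard (fun f hf => ⟨(hsub A hf).1, (hsub A hf).2.1⟩) (hfin A))
  · refine tendsto_of_tendsto_of_tendsto_of_le_of_le h1 tendsto_const_nhds (fun A => ?_)
      (fun A => ?_)
    · refine div_le_div_of_nonneg_right (Nat.cast_le.2 (Set.ncard_le_ncard (hsub A)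
        ((hfin A).subset fun f hf => ⟨hf.1, hf.2.1⟩))) (Nat.cast_nonneg _)
    · exact div_le_one_of_le₀ (Nat.cast_le.2 (Set.ncard_le_ncard
        (fun f hf => ⟨hf.1, hf.2.1⟩) (hfin A))) (Nat.cast_nonneg _)
  · rintro f Y ⟨g1, g2⟩
    refine ⟨fun v => ?_, ?_⟩
    · obtain ⟨x, z, hx, -, h0, -⟩ := g1 v
      exact ⟨x, hx, h0⟩
    · obtain ⟨x, z, hx, -, h0, -⟩ := g2
      exact ⟨x, hx, h0⟩

end Pool.Agent.Results.MP_bd895b_nt.FamiliesOverFunctionFields
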