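import Mathlib
import Pool.Agent.Q284.ZC.Fin
import Pool.Agent.Q284.ZC.Deg
import Pool.Agent.Q284.FDQ.App
import Pool.Agent.Y667.RP.Disc
import Pool.Agent.W672.FK.Lowf
import Pool.Agent.W307.RT.Tors

/-!
# The local-global complex for zero-cycles of all degrees modulo two, for a positive proportion of the
# curves with full rational 2-torsion

All elliptic curves `E : y² = x³ + A x + B` over `ℚ` with full rational 2-torsion, ordered by the naive
height or by the absolute value of the minimal discriminant. A zero-cycle on `E` over a field `K` is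
`n O + z`, `O` the point at infinity and `z` a finite sum of closed points of the affine curve, that is,
of maximal ideals of the coordinate ring `K[E]`. The Chow group `CH₀(E_K)` is the product of `ℤ` (the
degree) and the class group of `K[E]` (the class of `n O + z` is the class of `z`). For a root `e` of
`x³ + A x + B` and a nonzero integer `q` the quaternion algebra `(x - e, q)` is an element of the Brauer
group of `E`; its value at a closed point with the residue field `L` is the quaternion algebra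
`(N(x - e), q)` over `K`, `N` the norm from `L` to `K`, it is trivial at `O`. The value of a constant
class `(q₁, q₂)` at a zero-cycle is its multiple by the degree. For a positive proportion of the curves
the complex `CH₀(E) / 2 → ∏_v CH₀(E_v) / 2 → Hom(Br, ℚ / ℤ)` is exact, already for the subgroup of the
Brauer group generated by these elements.
-/

set_option autoImplicit false

namespace Pool.Agent.Results.MP_bd895b_nt.PositiveProportionZeroCycles

open Finset Filter Topology nonZeroDivisors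

/-- the curve `y² = x³ + A x + B` over `ℚ` -/
def E (A B : ℤ) : WeierstrassCurve ℚ := ⟨0, 0, 0, (A : ℚ), (B : ℚ)⟩

/-- the absolute value of the minimal discriminant of an elliptic curve `W` over `ℚ`: the smallest
absolute value of the discriminant of a Weierstrass equation `V` with integer coefficients which is
isomorphic to `W` over `ℚ` -/
noncomputable def minDisc (W : WeierstrassCurve ℚ) : ℕ :=
  sInf {n : ℕ | ∃ (V : WeierstrassCurve ℤ) (C : WeierstrassCurve.VariableChange ℚ),
    C • W = V.map (Int.castRingHom ℚ) ∧ n = V.Δ.natAbs}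

/-- the naive height of `y² = x³ + A x + B` is at most `Z` -/
def HeightLe (c : ℤ × ℤ) (Z : ℕ) : Prop := 4 * |c.1| ^ 3 ≤ Z ∧ 27 * c.2 ^ 2 ≤ Z

/-- the minimal discriminant of `y² = x³ + A x + B` is at most `Z` in absolute value -/
def DiscLe (c : ℤ × ℤ) (Z : ℕ) : Prop := minDisc (E c.1 c.2) ≤ Z

/-- The pairs `(A, B)` of integers such that `4 A³ + 27 B² ≠ 0`, there is no prime `p` with
`p⁴ ∣ A` and `p⁶ ∣ B`, `Z/2 x Z/2` embeds in the group of the rational points of
`y² = x³ + A x + B`, and the size (`HeightLe` or `DiscLe`) is at most `Z`. Every elliptic curve over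
`ℚ` with full rational 2-torsion is isomorphic to `E A B` for exactly one pair with the first three
properties. -/
def Fam (I : ℤ × ℤ → ℕ → Prop) (Z : ℕ) : Set (ℤ × ℤ) :=
  {c : ℤ × ℤ | 4 * c.1 ^ 3 + 27 * c.2 ^ 2 ≠ 0 ∧
    (∀ p : ℕ, p.Prime → ¬ ((p : ℤ) ^ 4 ∣ c.1 ∧ (p : ℤ) ^ 6 ∣ c.2)) ∧
    (∃ f : ZMod 2 × ZMod 2 →+ (E c.1 c.2).toAffine.Point, Function.Injective f) ∧ I c Z}

/-- the proportion of the curves of `S` among the curves of size at most `Z` -/
noncomputable def proportion (I : ℤ × ℤ → ℕ → Prop) (S : Set (ℤ × ℤ)) (Z : ℕ) : ℝ :=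
  ((Fam I Z ∩ S).ncard : ℝ) / (Fam I Z).ncard

lemma FamH_eq (H : ℕ) : Fam HeightLe H = (Pool.Agent.W307.RT.Cv 2 H : Set (ℤ × ℤ)) := by
  classical
  ext c
  have h : Pool.Agent.W307.RT.HasT 2 (Pool.Agent.W307.RT.Sh c.1 c.2) ↔
    ∃ f : ZMod 2 × ZMod 2 →+ (E c.1 c.2).toAffine.Point, Function.Injective f :=
    Pool.Agent.W307.RT.tors_iff
  unfold Fam HeightLe Pool.Agent.W307.RT.Cv
  rw [Set.mem_ofPred_eq, mem_coe, mem_filter, h, mem_product, mem_Icc, mem_Icc]
  constructor
  · rintro ⟨h1, h2, h3, h4, h5⟩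
    refine ⟨⟨?_, ?_⟩, h1, h4, h5, h2, h3⟩
    · rw [← abs_le]
      have h0 := abs_nonneg c.1
      rcases eq_or_lt_of_le h0 with h6 | h6
      · rw [← h6]; positivity
      · have : 1 ≤ |c.1| := h6
        nlinarith [mul_nonneg h0 h0, mul_self_nonneg (|c.1| - 1)]
    · rw [← abs_le]
      have h0 := abs_nonneg c.2
      rw [← sq_abs] at h5
      rcases eq_or_lt_of_le h0 with h6 | h6
      · rw [← h6]; positivity
      · have : 1 ≤ |c.2| := h6
        nlinarith
  · rintro ⟨-, h1, h4, h5, h2, h3⟩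
    exact ⟨h1, h2, h3, h4, h5⟩

lemma FamD_eq (D : ℕ) : Fam DiscLe D = (Pool.Agent.TH344.DS.Dv D : Set (ℤ × ℤ)) := by
  classical
  have h0 : Fam DiscLe D = Pool.Agent.W307.RS.DvS 2 D := by
    ext c
    have h : Pool.Agent.W307.RT.HasT 2 (Pool.Agent.W307.RT.Sh c.1 c.2) ↔
        ∃ f : ZMod 2 × ZMod 2 →+ (E c.1 c.2).toAffine.Point, Function.Injective f :=
      Pool.Agent.W307.RT.tors_iff
    unfold Fam Pool.Agent.W307.RS.DvS
    rw [Set.mem_ofPred_eq, Set.mem_ofPred_eq, h]
    exact Iff.rfl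
  rw [h0]
  unfold Pool.Agent.TH344.DS.Dv
  rw [dif_pos (Pool.Agent.TH344.DS.excd.1 D), Set.Finite.coe_toFinset]

/-- The number of these curves tends to infinity (ordering by height). -/
lemma tendstoH : Tendsto (fun Z : ℕ => (Fam HeightLe Z).ncard) atTop atTop := by
  simp only [FamH_eq, Set.ncard_coe_finset]
  exact Pool.Agent.W307.RT.tendsto_of_low Pool.Agent.W672.FK.lowf

/-- The number of these curves tends to infinity (ordering by the minimal discriminant). -/
lemma tendstoD : Tendsto (fun Z : ℕ => (Fam DiscLe Z).ncard) atTop atTop := by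
  have h1 := Pool.Agent.W307.RT.tendsto_of_low Pool.Agent.W672.FK.lowf
  have h2 : Tendsto (fun D : ℕ => (Pool.Agent.W307.RT.Cv 2 (D / 32)).card) atTop atTop :=
    h1.comp (Nat.tendsto_div_const_atTop (by norm_num))
  obtain ⟨hD1, hD2, hD3⟩ := Pool.Agent.TH344.DS.excd
  refine tendsto_atTop_mono (fun D => ?_) h2
  have h3 : (Pool.Agent.TH344.DS.Dv D : Set (ℤ × ℤ)) = Pool.Agent.W307.RS.DvS 2 D := by
    unfold Pool.Agent.TH344.DS.Dv
    rw [dif_pos (hD1 D), Set.Finite.coe_toFinset]
  rw [FamD_eq, h3, ← Set.ncard_coe_finset]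
  exact Set.ncard_le_ncard (Pool.Agent.W307.RS.Cv_sub Pool.Agent.W554.RS.mdl 2 (D / 32) D
    (Nat.mul_div_le D 32)) (hD1 D)

/-- the curve `y² = x³ + A x + B` over the integers -/
def W (A B : ℤ) : WeierstrassCurve.Affine ℤ := ⟨0, 0, 0, A, B⟩

/-- the points of `y² = x³ + A x + B` over a field -/
abbrev Pt (A B : ℤ) (K : Type) [Field K] : Type := ((W A B).baseChange K).Point

/-- the coordinate ring of the affine curve `y² = x³ + A x + B` over a field -/
def Crd (A B : ℤ) (K : Type) [Field K] : Type := ((W A B).baseChange K).CoordinateRing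

noncomputable instance (A B : ℤ) (K : Type) [Field K] : CommRing (Crd A B K) :=
  (inferInstance : CommRing ((W A B).baseChange K).CoordinateRing)

instance (A B : ℤ) (K : Type) [Field K] : IsDomain (Crd A B K) :=
  (inferInstance : IsDomain ((W A B).baseChange K).CoordinateRing)

noncomputable instance (A B : ℤ) (K : Type) [Field K] : Algebra K (Crd A B K) :=
  (inferInstance : Algebra K ((W A B).baseChange K).CoordinateRing)

/-- a zero-cycle on the affine curve `E - O` over `K`: a finite formal sum of maximal ideals of the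
coordinate ring (that is, of closed points) -/
abbrev Cycle (A B : ℤ) (K : Type) [Field K] : Type := MaximalSpectrum (Crd A B K) →₀ ℤ

/-- the fractional ideals of a domain -/
def FracId (R : Type) [CommRing R] [IsDomain R] : Type := FractionalIdeal R⁰ (FractionRing R)

noncomputable instance (R : Type) [CommRing R] [IsDomain R] : Monoid (FracId R) :=
  (inferInstance : Monoid (FractionalIdeal R⁰ (FractionRing R)))

/-- an ideal as a fractional ideal -/
noncomputable def frac {R : Type} [CommRing R] [IsDomain R] (I : Ideal R) : FracId R :=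
  FractionalIdeal.coeIdeal I

/-- the class of an invertible fractional ideal in the class group -/
noncomputable def mkCl (R : Type) [CommRing R] [IsDomain R] : (FracId R)ˣ →* ClassGroup R :=
  ClassGroup.mk (FractionRing R)

open Classical in
/-- The class of an invertible ideal in the class group (`1` if the ideal is not invertible). -/
noncomputable def cl {R : Type} [CommRing R] [IsDomain R] (I : Ideal R) : ClassGroup R :=
  if h : IsUnit (frac I) then mkCl R h.unit else 1

/-- The class of a zero-cycle on the affine curve in the class group of the coordinate ring. -/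
noncomputable def class' {A B : ℤ} {K : Type} [Field K] (z : Cycle A B K) : ClassGroup (Crd A B K) :=
  z.prod fun 𝔪 n => cl 𝔪.asIdeal ^ n

/-- the residue field of a closed point -/
def Res {A B : ℤ} {K : Type} [Field K] (𝔪 : MaximalSpectrum (Crd A B K)) : Type :=
  Crd A B K ⧸ 𝔪.asIdeal

noncomputable instance {A B : ℤ} {K : Type} [Field K] (𝔪 : MaximalSpectrum (Crd A B K)) :
    CommRing (Res 𝔪) := (inferInstance : CommRing (Crd A B K ⧸ 𝔪.asIdeal))

noncomputable instance {A B : ℤ} {K : Type} [Field K] (𝔪 : MaximalSpectrum (Crd A B K)) :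
    Algebra K (Res 𝔪) := (inferInstance : Algebra K (Crd A B K ⧸ 𝔪.asIdeal))

/-- the function `x` -/
noncomputable def X (A B : ℤ) (K : Type) [Field K] : Crd A B K :=
  WeierstrassCurve.Affine.CoordinateRing.mk _ (Polynomial.C Polynomial.X)

/-- the image of the function `x` in the residue field of a closed point -/
noncomputable def xval {A B : ℤ} {K : Type} [Field K] (𝔪 : MaximalSpectrum (Crd A B K)) : Res 𝔪 :=
  Ideal.Quotient.mk 𝔪.asIdeal (X A B K)

open Classical in
/-- The norm of the value of the function `x - e` at a closed point, modulo squares, `e` a root of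
`x³ + A x + B`. The divisor of the function is `2 (e, 0) - 2 O`; at the zero the value is that of the
product of the two other functions (the derivative of the polynomial). -/
noncomputable def value {A B : ℤ} {K : Type} [Field K] (𝔪 : MaximalSpectrum (Crd A B K)) (e : ℤ) :
    K :=
  Algebra.norm K (if xval 𝔪 - (e : Res 𝔪) = 0 then ((3 * e ^ 2 + A : ℤ) : Res 𝔪)
    else xval 𝔪 - (e : Res 𝔪))

/-- The value of `x - e` at a zero-cycle, modulo squares (the value at `O` is `1`). The value of the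
class `(x - e, q)` of the Brauer group at the zero-cycle is the class of the quaternion algebra with
this entry and `q`. -/
noncomputable def eval {A B : ℤ} {K : Type} [Field K] (z : Cycle A B K) (e : ℤ) : K :=
  z.prod fun 𝔪 n => value 𝔪 e ^ n

/-- a zero-cycle on the elliptic curve `E` over `K`: the multiplicity of the point at infinity `O` and
a zero-cycle on the affine curve -/
abbrev ZCycle (A B : ℤ) (K : Type) [Field K] : Type := ℤ × Cycle A B K

/-- the degree of a zero-cycle -/
noncomputable def deg {A B : ℤ} {K : Type} [Field K] (z : ZCycle A B K) : ℤ :=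
  z.1 + z.2.sum fun 𝔪 n => n * (Module.finrank K (Res 𝔪) : ℤ)

/-- a family of zero-cycles over all the completions of `ℚ`: the real component and the `p`-adic
components -/
abbrev Local (A B : ℤ) : Type := ZCycle A B ℝ × ∀ p : Nat.Primes, ZCycle A B ℚ_[(p : ℕ)]

/-- The quaternion algebra `(a, b)` over `F` splits, that is, the Hilbert symbol `(a, b)` is `1`:
the conic `z ^ 2 = a x ^ 2 + b y ^ 2` has a point over `F`. -/
def Splits {F : Type} [Field F] (a b : F) : Prop :=
  ∃ x y z : F, (x ≠ 0 ∨ y ≠ 0 ∨ z ≠ 0) ∧ z ^ 2 = a * x ^ 2 + b * y ^ 2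

/-- The set of the places (`none` is the real one) at which the value of the class `(x - e, q)` at
the family of local zero-cycles is not trivial. -/
def Ram {A B : ℤ} (z : Local A B) (e q : ℤ) : Set (Option Nat.Primes) :=
  {v | match v with
    | none => ¬ Splits (eval z.1.2 e) (q : ℝ)
    | some p => ¬ Splits (eval (z.2 p).2 e) (q : ℚ_[(p : ℕ)])}

/-- The set of the places at which the value of the constant class `(q₁, q₂)` at the family of local
zero-cycles, the multiple of the class by the degree, is not trivial. -/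
def RamC {A B : ℤ} (z : Local A B) (q₁ q₂ : ℤ) : Set (Option Nat.Primes) :=
  {v | match v with
    | none => Odd (deg z.1) ∧ ¬ Splits (q₁ : ℝ) (q₂ : ℝ)
    | some p => Odd (deg (z.2 p)) ∧ ¬ Splits (q₁ : ℚ_[(p : ℕ)]) (q₂ : ℚ_[(p : ℕ)])}

/-- The family of local zero-cycles is orthogonal to the classes `(x - e, q)` and `(q₁, q₂)`: the
number of the places at which the value is not trivial is even, so that the sum of the invariants is
zero. -/
def Orthogonal {A B : ℤ} (z : Local A B) : Prop :=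
  (∀ e : ℤ, e ^ 3 + A * e + B = 0 → ∀ q : ℤ, q ≠ 0 → Even (Ram z e q).ncard) ∧
    ∀ q₁ q₂ : ℤ, q₁ ≠ 0 → q₂ ≠ 0 → Even (RamC z q₁ q₂).ncard

open Classical in
/-- The class of `P - O` in the class group, as a homomorphism: Mathlib's isomorphism `toClass` of the
group of points with the class group. -/
noncomputable def toCl (A B : ℤ) (K : Type) [Field K] :
    Pt A B K →+ Additive (ClassGroup (Crd A B K)) :=
  WeierstrassCurve.Affine.Point.toClass

open Classical in
/-- The class of `P - O` in the class group. -/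
noncomputable def ptClass {A B : ℤ} {K : Type} [Field K] (P : Pt A B K) : ClassGroup (Crd A B K) :=
  (toCl A B K P).toMul

open Classical in
/-- a rational point as a point over `K` -/
noncomputable def bc {A B : ℤ} (Q : Pt A B ℚ) (K : Type) [Field K] [CharZero K] : Pt A B K :=
  WeierstrassCurve.Affine.Point.baseChange ℚ K Q

/-- The zero-cycle is congruent modulo `2 CH₀(E_K)` to the zero-cycle `Q + (d - 1) O` of degree `d`:
the degrees are congruent modulo two, and the classes modulo squares in the class group. -/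
def Cong {A B : ℤ} {K : Type} [Field K] [CharZero K] (z : ZCycle A B K) (d : ℤ) (Q : Pt A B ℚ) :
    Prop :=
  Even (deg z - d) ∧ ∃ c : ClassGroup (Crd A B K), class' z.2 = ptClass (bc Q K) * c ^ 2

/-- The family of local zero-cycles is congruent to the zero-cycle `Q + (d - 1) O` modulo
`2 CH₀(E_v)` at all the places `v`, `Q` a rational point (or `O`). -/
def Congruent {A B : ℤ} (z : Local A B) (d : ℤ) (Q : Pt A B ℚ) : Prop :=
  Cong z.1 d Q ∧ ∀ p : Nat.Primes, Cong (z.2 p) d Q

/-- all maximal ideals of the coordinate ring are invertible, and their residue fields are finite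
extensions of `K` -/
def Regular (A B : ℤ) (K : Type) [Field K] : Prop :=
  ∀ 𝔪 : MaximalSpectrum (Crd A B K), IsUnit (frac 𝔪.asIdeal) ∧ Module.Finite K (Res 𝔪)

/-- The curves for which the classes `(x - e, q)` and `(q₁, q₂)` have a nontrivial value at finitely
many components of every family of local zero-cycles, and every family orthogonal to these classes is
congruent to a rational zero-cycle modulo `2 CH₀(E_v)` at all the places (all the maximal ideals of
the coordinate rings being invertible with finite residue fields, so that the classes and degrees make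
sense). -/
def ModTwo : Set (ℤ × ℤ) :=
  {c | (Regular c.1 c.2 ℝ ∧ ∀ p : Nat.Primes, Regular c.1 c.2 ℚ_[(p : ℕ)]) ∧
    (∀ z : Local c.1 c.2,
      (∀ e q : ℤ, e ^ 3 + c.1 * e + c.2 = 0 → q ≠ 0 → (Ram z e q).Finite) ∧
      ∀ q₁ q₂ : ℤ, q₁ ≠ 0 → q₂ ≠ 0 → (RamC z q₁ q₂).Finite) ∧
    ∀ z : Local c.1 c.2, Orthogonal z → ∃ (d : ℤ) (Q : Pt c.1 c.2 ℚ), Congruent z d Q}

open Classical in
lemma value_eq {K : Type} [Field K] {A B e e' e'' : ℤ}
    (h : ∀ x : ℤ, x ^ 3 + A * x + B = (x - e) * (x - e') * (x - e''))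
    (𝔪 : MaximalSpectrum (Crd A B K)) :
    value 𝔪 e = Pool.Agent.Q284.ZC.cval (W := (Pool.Agent.Q284.FDQ.WZ A B).baseChange K)
      𝔪.asIdeal (e : K) (((e : K) - e') * (e - e'')) := by
  obtain ⟨hs, hA, -⟩ := Pool.Agent.W402.FK.coef A B e e' e'' h
  have h1 : ((3 * e ^ 2 + A : ℤ) : K) = ((e : K) - e') * (e - e'') := by
    have h2 : 3 * e ^ 2 + A = (e - e') * (e - e'') := by
      rw [hA]
      linear_combination (2 * e) * hs
    rw [h2]
    push_cast
    ring
  have h2 : ((3 * e ^ 2 + A : ℤ) : Res 𝔪) =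
      algebraMap K (Res 𝔪) (((e : K) - e') * (e - e'')) := by
    rw [← h1]
    exact (map_intCast (algebraMap K (Res 𝔪)) _).symm
  have h3 : (e : Res 𝔪) = algebraMap K (Res 𝔪) (e : K) :=
    (map_intCast (algebraMap K (Res 𝔪)) e).symm
  unfold value
  rw [h2, h3]
  rfl

/-- the point with the class and the values of a zero-cycle -/
lemma cycle_pt {K : Type} [Field K] [CharZero K] [DecidableEq K] {A B e1 e2 e3 : ℤ}
    (h : ∀ x : ℤ, x ^ 3 + A * x + B = (x - e1) * (x - e2) * (x - e3)) (h12 : e1 ≠ e2)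
    (h13 : e1 ≠ e3) (h23 : e2 ≠ e3) (z : Cycle A B K) :
    ∃ S : ((Pool.Agent.Q284.FDQ.WZ A B).baseChange K).Point,
      class' z = (WeierstrassCurve.Affine.Point.toClass S).toMul ∧
      (IsSquare (Pool.Agent.Q284.FDQ.vl S (e1 : K) (((e1 : K) - e2) * (e1 - e3)) * eval z e1) ∧
        eval z e1 ≠ 0) ∧
      (IsSquare (Pool.Agent.Q284.FDQ.vl S (e2 : K) (((e2 : K) - e1) * (e2 - e3)) * eval z e2) ∧
        eval z e2 ≠ 0) ∧
      IsSquare (Pool.Agent.Q284.FDQ.vl S (e3 : K) (((e3 : K) - e1) * (e3 - e2)) * eval z e3) ∧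
        eval z e3 ≠ 0 := by
  have c12 : (e1 : K) ≠ e2 := fun h => h12 (by exact_mod_cast h)
  have c13 : (e1 : K) ≠ e3 := fun h => h13 (by exact_mod_cast h)
  have c23 : (e2 : K) ≠ e3 := fun h => h23 (by exact_mod_cast h)
  have p2 : ∀ x : ℤ, x ^ 3 + A * x + B = (x - e2) * (x - e1) * (x - e3) := by
    intro x; rw [h]; ring
  have p3 : ∀ x : ℤ, x ^ 3 + A * x + B = (x - e3) * (x - e1) * (x - e2) := by
    intro x; rw [h]; ring
  obtain ⟨S, s0, ⟨s1, s2, s3⟩, n1, n2, n3⟩ := Pool.Agent.Q284.ZC.cycle_cls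
    (W := (Pool.Agent.Q284.FDQ.WZ A B).baseChange K) (Pool.Agent.Q284.FDQ.WZ_eq h K)
    c12 c13 c23 z
  have g1 : eval z e1 = z.prod fun 𝔪 n => Pool.Agent.Q284.ZC.cval
      (W := (Pool.Agent.Q284.FDQ.WZ A B).baseChange K) 𝔪.asIdeal (e1 : K)
      (((e1 : K) - e2) * (e1 - e3)) ^ n := by
    unfold eval
    exact Finset.prod_congr rfl fun 𝔪 _ => congrArg (· ^ (z 𝔪)) (value_eq h 𝔪)
  have g2 : eval z e2 = z.prod fun 𝔪 n => Pool.Agent.Q284.ZC.cval
      (W := (Pool.Agent.Q284.FDQ.WZ A B).baseChange K) 𝔪.asIdeal (e2 : K)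
      (((e2 : K) - e1) * (e2 - e3)) ^ n := by
    unfold eval
    exact Finset.prod_congr rfl fun 𝔪 _ => congrArg (· ^ (z 𝔪)) (value_eq p2 𝔪)
  have g3 : eval z e3 = z.prod fun 𝔪 n => Pool.Agent.Q284.ZC.cval
      (W := (Pool.Agent.Q284.FDQ.WZ A B).baseChange K) 𝔪.asIdeal (e3 : K)
      (((e3 : K) - e1) * (e3 - e2)) ^ n := by
    unfold eval
    exact Finset.prod_congr rfl fun 𝔪 _ => congrArg (· ^ (z 𝔪)) (value_eq p3 𝔪)
  rw [g1, g2, g3]
  exact ⟨S, s0, ⟨s1, n1⟩, ⟨s2, n2⟩, s3, n3⟩

/-- the places with odd degree -/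
def OddDeg {A B : ℤ} (z : Local A B) : Set (Option Nat.Primes) :=
  {v | match v with
    | none => Odd (deg z.1)
    | some p => Odd (deg (z.2 p))}

lemma ramC_eq {A B : ℤ} (z : Local A B) (q₁ q₂ : ℤ) : RamC z q₁ q₂ =
    OddDeg z ∩ Pool.Agent.W313.BMX.ram (Pool.Agent.W313.BMX.diag q₁) q₂ := by
  ext v
  cases v with
  | none => exact Iff.rfl
  | some p => exact Iff.rfl

lemma mem_of {c : ℤ × ℤ} (h : Pool.Agent.Q284.FDQ.PR c) : c ∈ ModTwo := by
  classical
  obtain ⟨e1, e2, e3, hp, h12, h13, h23, h4, hc⟩ := h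
  have p2 : ∀ x : ℤ, x ^ 3 + c.1 * x + c.2 = (x - e2) * (x - e1) * (x - e3) := by
    intro x; rw [hp]; ring
  have p3 : ∀ x : ℤ, x ^ 3 + c.1 * x + c.2 = (x - e3) * (x - e1) * (x - e2) := by
    intro x; rw [hp]; ring
  have hinv : ∀ (K : Type) [Field K] [CharZero K], Regular c.1 c.2 K := by
    intro K _ _ 𝔪
    have c12 : (e1 : K) ≠ e2 := fun h => h12 (by exact_mod_cast h)
    have c13 : (e1 : K) ≠ e3 := fun h => h13 (by exact_mod_cast h)
    have c23 : (e2 : K) ≠ e3 := fun h => h23 (by exact_mod_cast h)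
    exact ⟨(Pool.Agent.Q284.ZC.max_cls (h := 𝔪.isMaximal)
      (W := (Pool.Agent.Q284.FDQ.WZ c.1 c.2).baseChange K) (Pool.Agent.Q284.FDQ.WZ_eq hp K)
      c12 c13 c23 𝔪.asIdeal).1, Pool.Agent.Q284.ZC.residue_finite (h := 𝔪.isMaximal)
      (W := (Pool.Agent.Q284.FDQ.WZ c.1 c.2).baseChange K) 𝔪.asIdeal⟩
  have ne : ∀ {a b c : ℤ}, a ≠ b → a ≠ c → ∀ (K : Type) [Field K] [CharZero K],
      ((a : K) - b) * (a - c) ≠ 0 := by
    intro a b c hab hac K _ _
    exact mul_ne_zero (sub_ne_zero.2 (fun h => hab (by exact_mod_cast h)))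
      (sub_ne_zero.2 (fun h => hac (by exact_mod_cast h)))
  -- the adelic point
  have pts : ∀ z : Local c.1 c.2, ∃ (Pr : ((Pool.Agent.Q284.FDQ.WZ c.1 c.2).baseChange ℝ).Point)
      (Pp : ∀ p : Nat.Primes, ((Pool.Agent.Q284.FDQ.WZ c.1 c.2).baseChange ℚ_[(p : ℕ)]).Point),
      class' z.1.2 = (WeierstrassCurve.Affine.Point.toClass Pr).toMul ∧
      (∀ p, class' (z.2 p).2 = (WeierstrassCurve.Affine.Point.toClass (Pp p)).toMul) ∧
      (∀ q : ℤ, Ram z e1 q = Pool.Agent.W313.BMX.ram
        ⟨Pool.Agent.Q284.FDQ.vl Pr (e1 : ℝ) (((e1 : ℝ) - e2) * (e1 - e3)), fun p =>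
          Pool.Agent.Q284.FDQ.vl (Pp p) (e1 : ℚ_[(p : ℕ)])
            (((e1 : ℚ_[(p : ℕ)]) - e2) * (e1 - e3))⟩ q) ∧
      (∀ q : ℤ, Ram z e2 q = Pool.Agent.W313.BMX.ram
        ⟨Pool.Agent.Q284.FDQ.vl Pr (e2 : ℝ) (((e2 : ℝ) - e1) * (e2 - e3)), fun p =>
          Pool.Agent.Q284.FDQ.vl (Pp p) (e2 : ℚ_[(p : ℕ)])
            (((e2 : ℚ_[(p : ℕ)]) - e1) * (e2 - e3))⟩ q) ∧
      (∀ q : ℤ, Ram z e3 q = Pool.Agent.W313.BMX.ram
        ⟨Pool.Agent.Q284.FDQ.vl Pr (e3 : ℝ) (((e3 : ℝ) - e1) * (e3 - e2)), fun p =>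
          Pool.Agent.Q284.FDQ.vl (Pp p) (e3 : ℚ_[(p : ℕ)])
            (((e3 : ℚ_[(p : ℕ)]) - e1) * (e3 - e2))⟩ q) := by
    intro z
    obtain ⟨Pr, r0, ⟨r1, r1'⟩, ⟨r2, r2'⟩, r3, r3'⟩ := cycle_pt hp h12 h13 h23 z.1.2
    choose Pp k0 k1 k2 k3 k3' using fun p : Nat.Primes => cycle_pt hp h12 h13 h23 (z.2 p).2
    refine ⟨Pr, Pp, r0, k0, fun q => ?_, fun q => ?_, fun q => ?_⟩
    · ext v
      cases v with
      | none =>
        exact not_congr (Pool.Agent.Q284.ZC.splits_sq
          (Pool.Agent.Q284.FDQ.vl_ne Pr (ne h12 h13 ℝ)) r1' r1).symm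
      | some p =>
        exact not_congr (Pool.Agent.Q284.ZC.splits_sq
          (Pool.Agent.Q284.FDQ.vl_ne (Pp p) (ne h12 h13 _)) (k1 p).2 (k1 p).1).symm
    · ext v
      cases v with
      | none =>
        exact not_congr (Pool.Agent.Q284.ZC.splits_sq
          (Pool.Agent.Q284.FDQ.vl_ne Pr (ne h12.symm h23 ℝ)) r2' r2).symm
      | some p =>
        exact not_congr (Pool.Agent.Q284.ZC.splits_sq
          (Pool.Agent.Q284.FDQ.vl_ne (Pp p) (ne h12.symm h23 _)) (k2 p).2 (k2 p).1).symm
    · ext v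
      cases v with
      | none =>
        exact not_congr (Pool.Agent.Q284.ZC.splits_sq
          (Pool.Agent.Q284.FDQ.vl_ne Pr (ne h13.symm h23.symm ℝ)) r3' r3).symm
      | some p =>
        exact not_congr (Pool.Agent.Q284.ZC.splits_sq
          (Pool.Agent.Q284.FDQ.vl_ne (Pp p) (ne h13.symm h23.symm _)) (k3' p) (k3 p)).symm
  refine ⟨⟨hinv ℝ, fun p => hinv _⟩, fun z => ⟨fun e q he hq => ?_, fun q₁ q₂ hq₁ hq₂ => ?_⟩,
    fun z hz => ?_⟩
  · obtain ⟨Pr, Pp, -, -, t1, t2, t3⟩ := pts z
    rcases Pool.Agent.W402.FK.roots c.1 c.2 e1 e2 e3 hp e he with rfl | rfl | rfl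
    · rw [t1 q]
      exact Pool.Agent.Q284.FDQ.ram_fin hp h12 h13 h23 Pr Pp hq
    · rw [t2 q]
      exact Pool.Agent.Q284.FDQ.ram_fin p2 h12.symm h23 h13 Pr Pp hq
    · rw [t3 q]
      exact Pool.Agent.Q284.FDQ.ram_fin p3 h13.symm h23.symm h12 Pr Pp hq
  · rw [ramC_eq]
    exact (Pool.Agent.Q284.ZC.ram_diag_fin hq₁ hq₂).inter_of_right _
  · obtain ⟨Pr, Pp, s0, s1, t1, t2, -⟩ := pts z
    obtain ⟨Q, q1, q2⟩ := Pool.Agent.Q284.FDQ.adelic_core hp h12 h13 h23 h4 hc Pr Pp
      (fun q hq => by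
        have := hz.1 e1 (by rw [hp]; ring) q hq
        rwa [t1 q] at this)
      (fun q hq => by
        have := hz.1 e2 (by rw [hp]; ring) q hq
        rwa [t2 q] at this)
    obtain ⟨d, hd1, hd2⟩ : ∃ d : ℤ, Even (deg z.1 - d) ∧ ∀ p, Even (deg (z.2 p) - d) := by
      have hev : ∀ q₁ : ℤ, q₁ ≠ 0 → ∀ q₂ : ℤ, q₂ ≠ 0 → Even (OddDeg z ∩
          Pool.Agent.W313.BMX.ram (Pool.Agent.W313.BMX.diag q₁) q₂).ncard := by
        intro q₁ hq₁ q₂ hq₂
        rw [← ramC_eq]
        exact hz.2 q₁ q₂ hq₁ hq₂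
      rcases Pool.Agent.Q284.ZC.places hev with h0 | h0
      · refine ⟨0, ?_, fun p => ?_⟩
        · rw [sub_zero, ← Int.not_odd_iff_even]
          intro ho
          have : none ∈ OddDeg z := ho
          rw [h0] at this
          exact this
        · rw [sub_zero, ← Int.not_odd_iff_even]
          intro ho
          have : some p ∈ OddDeg z := ho
          rw [h0] at this
          exact this
      · refine ⟨1, ?_, fun p => ?_⟩
        · have : none ∈ OddDeg z := by rw [h0]; trivial
          exact Odd.sub_odd this odd_one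
        · have : some p ∈ OddDeg z := by rw [h0]; trivial
          exact Odd.sub_odd this odd_one
    refine ⟨d, Q, ⟨hd1, ?_⟩, fun p => ⟨hd2 p, ?_⟩⟩
    · obtain ⟨R, hR⟩ := q1
      refine ⟨(WeierstrassCurve.Affine.Point.toClass R).toMul, ?_⟩
      rw [s0, hR, map_add, toMul_add, map_add, toMul_add]
      exact congrArg₂ (· * ·) rfl (pow_two _).symm
    · obtain ⟨R, hR⟩ := q2 p
      refine ⟨(WeierstrassCurve.Affine.Point.toClass R).toMul, ?_⟩
      rw [s1, hR, map_add, toMul_add, map_add, toMul_add]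
      exact congrArg₂ (· * ·) rfl (pow_two _).symm

/-- **Theorem.** Order the elliptic curves over `ℚ` with full rational 2-torsion by the naive height
or by the absolute value of the minimal discriminant. For both orderings there are finitely many
curves of size at most `Z`, their number tends to infinity with `Z`, and a positive proportion of the
curves (the lower density is positive) belongs to `ModTwo`: every family of local zero-cycles
of any degrees orthogonal to the classes `(x - e, q)` and `(q₁, q₂)` is congruent to a rational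
zero-cycle modulo `2 CH₀(E_v)` at all the places `v`. -/
theorem result : ∀ I : ℤ × ℤ → ℕ → Prop, I = HeightLe ∨ I = DiscLe →
    (∀ Z : ℕ, (Fam I Z).Finite) ∧ Tendsto (fun Z : ℕ => (Fam I Z).ncard) atTop atTop ∧
    ∃ δ : ℝ, 0 < δ ∧ ∀ᶠ Z : ℕ in atTop, δ ≤ proportion I ModTwo Z := by
  classical
  have h0 : ∃ c : ℝ, 0 < c ∧ ∃ H0 : ℕ, ∀ H : ℕ, H0 ≤ H →
      c * ((Pool.Agent.W307.RT.Cv 2 H).card : ℝ) ≤
        (((Pool.Agent.W307.RT.Cv 2 H).filter Pool.Agent.Q284.FDQ.PR).card : ℝ) := by
    obtain ⟨c, hc, H0, h⟩ := Pool.Agent.Q284.FDQ.curvesPR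
    refine ⟨c, hc, H0, fun H hH => (h H hH).trans
      (Nat.cast_le.2 (card_le_card fun k hk => ?_))⟩
    rw [mem_filter] at hk ⊢
    exact hk
  have hfin : ∀ I : ℤ × ℤ → ℕ → Prop, I = HeightLe ∨ I = DiscLe → ∀ Z : ℕ, (Fam I Z).Finite := by
    rintro I (rfl | rfl) Z
    · rw [FamH_eq]
      exact finite_toSet _
    · rw [FamD_eq]
      exact finite_toSet _
  intro I hI
  refine ⟨hfin I hI, ?_, ?_⟩
  · rcases hI with rfl | rfl
    · exact tendstoH
    · exact tendstoD
  · rcases hI with rfl | rfl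
    · obtain ⟨c, hc, H0, h⟩ := h0
      refine ⟨c, hc, ?_⟩
      filter_upwards [eventually_ge_atTop H0, tendstoH.eventually_ge_atTop 1] with H hH hH1
      unfold proportion
      rw [le_div_iff₀ (by exact_mod_cast hH1)]
      have e1 : (Fam HeightLe H).ncard = (Pool.Agent.W307.RT.Cv 2 H).card := by
        rw [FamH_eq, Set.ncard_coe_finset]
      rw [e1]
      refine (h H hH).trans (Nat.cast_le.2 ?_)
      rw [← Set.ncard_coe_finset]
      refine Set.ncard_le_ncard (fun k hk => ?_) (Set.Finite.inter_of_left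
        (hfin _ (Or.inl rfl) _) _)
      rw [mem_coe, mem_filter] at hk
      refine ⟨?_, mem_of hk.2⟩
      rw [FamH_eq, mem_coe]
      exact hk.1
    · obtain ⟨c, hc, H0, h⟩ := Pool.Agent.Y667.RP.disc_of_height Pool.Agent.Q284.FDQ.PR h0
      refine ⟨c, hc, ?_⟩
      filter_upwards [eventually_ge_atTop H0, tendstoD.eventually_ge_atTop 1] with H hH hH1
      unfold proportion
      rw [le_div_iff₀ (by exact_mod_cast hH1)]
      have e1 : (Fam DiscLe H).ncard = (Pool.Agent.TH344.DS.Dv H).card := by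
        rw [FamD_eq, Set.ncard_coe_finset]
      rw [e1]
      refine (h H hH).trans (Nat.cast_le.2 ?_)
      rw [← Set.ncard_coe_finset]
      refine Set.ncard_le_ncard (fun k hk => ?_) (Set.Finite.inter_of_left
        (hfin _ (Or.inr rfl) _) _)
      rw [mem_coe, mem_filter] at hk
      refine ⟨?_, mem_of hk.2⟩
      rw [FamD_eq, mem_coe]
      exact hk.1

end Pool.Agent.Results.MP_bd895b_nt.PositiveProportionZeroCycles
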