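import Pool.Agent.Results.MP_bd895b_nt.RandomZeroCycles
import Pool.Agent.Q319.WN.Form2

/-!
# Approximation of zero-cycles on ALL Fano complete intersections near the multiples and the dilates of almost every real one

Let `d 1, …, d s ≥ 2`, `d 1 + ⋯ + d s ≤ n` and `n ≥ 3`, so that the smooth complete intersections of hypersurfaces of degrees
`d 1, …, d s` in `ℙⁿ` are Fano varieties. We consider systems of integral forms whose coefficients are close to those of the
multiples `k F` or of the dilates `v_k F` of a system `F` of real forms. A system is good at the level `m` if the complete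
intersection is not smooth or not everywhere locally soluble, or if all families of local zero-cycles (of any number of
points, of any degrees and coefficients) at the real place and at the primes up to `m + 1` are approximated to precision
`1 / (m + 1)` by zero-cycles over `ℚ`.

1. For all real `F` with coefficients at most `Y` outside a set of measure at most `ε Y ^ M` (`M` the number of
   coefficients) and 100% of the `k ≤ R` ALL integral systems whose coefficients are within `w` of those of `k F` are good
   at the level `m` (`Y` large in terms of `ε`, `w` and `m`; every `R`).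
2. For every sequence `v_k → ∞` and almost every real `F` ALL integral systems within `w` of `v_k F` are good at the level
   `m`, for 100% of the `k < K_j`, for a sequence `K_j → ∞` which does not depend on `F`, `w` and `m`.
3. If `v_k` increases fast enough then for almost every real `F` and all large `k` ALL integral systems whose coefficients
   are within `k` of those of `v_k F` are good at all levels `m ≤ k`.

From Mathlib: `volume`: the Lebesgue measure; `MvPolynomial`, `IsHomogeneous`. The statement for 100% of the complete
intersections is from the starting file `RandomZeroCycles` (with the definitions of `Smooth`, `LocallySoluble`,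
`ZeroCycleApproximation`). `system`, `mons` are defined in `Pool.Agent.Q319.WN.Form`; `MultiplesVec`, `DilatesVec`,
`FastDilatesVec` in `Pool.Agent.Q319.WN.Vec`.
-/

set_option autoImplicit false

namespace Pool.Agent.Results.MP_bd895b_nt.SystemsNearRealSystems

open Filter Topology Pool.Agent.Q319.WN Pool.Agent.Results.MP_bd895b_nt.RandomZeroCycles

/-- The indices of the coefficients of a system of forms of degrees `d j` in `n + 1` variables: pairs of a number `j` and a
monomial of degree `d j`. -/
abbrev Index {s : ℕ} (n : ℕ) (d : Fin s → ℕ) : Type := Σ j : Fin s, ↥(mons n (d j))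

/-- The system of the integral forms with the coefficients `x` defines a smooth and everywhere locally soluble complete
intersection for which the approximation of zero-cycles to precision `1 / (m + 1)` at the real place and the primes up to
`m + 1` fails. -/
def Fails {s : ℕ} (n : ℕ) (d : Fin s → ℕ) (m : ℕ) (x : Index n d → ℤ) : Prop :=
  (Smooth (system (fun j => mons n (d j)) x) ∧ LocallySoluble (system (fun j => mons n (d j)) x)) ∧
    ¬ ZeroCycleApproximation (m + 1) (system (fun j => mons n (d j)) x)

lemma wa_mono {s n : ℕ} (M m : ℕ) (f : Fin s → MvPolynomial (Fin (n + 1)) ℤ) (hM : 1 ≤ M) (hm : M ≤ m)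
    (h : ZeroCycleApproximation m f) : ZeroCycleApproximation M f := by
  have h0 : (0 : ℝ) < M := by exact_mod_cast hM
  have h1 : (M : ℝ) ≤ m := by exact_mod_cast hm
  have hc : ∀ (K : Type) [NormedField K] (z : Fin (n + 1) → K) (x : Fin (n + 1) → ℚ), Close m z x → Close M z x := by
    intro K _ z x hx
    obtain ⟨c, hc, hc1⟩ := hx
    exact ⟨c, hc, fun i => (hc1 i).trans (div_le_div_of_nonneg_left (norm_nonneg _) h0 h1)⟩
  intro r P Q hP hQ
  obtain ⟨R, h2, h3, h4⟩ := h r P Q hP hQ
  exact ⟨R, h2, fun p _ hp i => hc _ _ _ (h3 p (hp.trans hm) i), fun i => hc _ _ _ (h4 i)⟩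

lemma fails_null {s n : ℕ} (d : Fin s → ℕ) (hs : 1 ≤ s) (hd : ∀ j, 2 ≤ d j) (hdn : ∑ j, d j ≤ n)
    (hn : 3 ≤ n) (M : ℕ) : NullBox (Fails n d M) := by
  obtain ⟨m, hm, h⟩ := RandomZeroCycles.result s n d hs hd hdn hn
  have e0 : ∀ H, Systems d n H = {f : Fin s → MvPolynomial (Fin (n + 1)) ℤ | ∀ j, (f j).support ⊆ mons n (d j) ∧
      ∀ m, |(f j).coeff m| ≤ (H : ℤ)} := by
    intro H
    ext f
    simp only [Systems, Set.mem_ofPred_eq, homog_iff]
  refine null_system (fun j => mons n (d j)) (fun f => Smooth f ∧ LocallySoluble f)
    (fun f => ZeroCycleApproximation (M + 1) f) ?_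
  refine ratio_level _ (box_system_finite _) _ (fun m f => ZeroCycleApproximation m f) wa_mono m hm ?_ (M + 1) (by omega)
  refine h.congr fun H => ?_
  simp only [e0, and_assoc]

/-- Let `d j ≥ 2`, `∑ d j ≤ n`, `n ≥ 3`. For systems of integral forms of degrees `d j` in `n + 1` variables the failure of
the approximation of zero-cycles to precision `1 / (m + 1)` at the real place and the primes up to `m + 1` (`Fails n d m`) is
1. rare at the multiples `k F` of almost every system `F` of real forms,
2. rare at the dilates `v k F`, for every sequence `v k → ∞` and almost every `F`,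
3. absent within the distance `k` of `v k F` and for `m ≤ k`, for all large `k`, for every fast sequence `v k` and almost
   every `F` (see `MultiplesVec`, `DilatesVec` and `FastDilatesVec` for the precise statements). -/
theorem result (s n : ℕ) (d : Fin s → ℕ) (hs : 1 ≤ s) (hd : ∀ j, 2 ≤ d j) (hdn : ∑ j, d j ≤ n)
    (hn : 3 ≤ n) :
    (∀ m, MultiplesVec (Fails n d m)) ∧ DilatesVec (Fails n d) ∧ FastDilatesVec (Fails n d) :=
  null_all fun m => fails_null d hs hd hdn hn m

end Pool.Agent.Results.MP_bd895b_nt.SystemsNearRealSystems
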